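import Pool.Agent.helper77.BND.SpecB

/-!
# Row bnd:BEQ (MP_376aaf_an): idempotents over the block algebras with equal ranks are equivalent
-/

set_option autoImplicit false

open scoped Topology Matrix
open Filter Finset

namespace Pool.Agent.BND

open Pool.Agent.CZ Pool.Agent.PV

/-! ### block matrices -/

/-- the matrix over `κ × Fin d`, `μ × Fin d` with the entries `G a b i j` -/
def BEQ_m {κ μ : Type} (G : κ → μ → ℕ → ℕ → ℂ) (d : ℕ) : Matrix (κ × Fin d) (μ × Fin d) ℂ :=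
  fun p q => G p.1 q.1 p.2 q.2

/-- the entries of a matrix -/
def BEQ_u {κ μ : Type} {d : ℕ} (x : Matrix (κ × Fin d) (μ × Fin d) ℂ) (a : κ) (b : μ) (i j : ℕ) : ℂ :=
  if hij : i < d ∧ j < d then x (a, ⟨i, hij.1⟩) (b, ⟨j, hij.2⟩) else 0

theorem BEQ_mu {κ μ : Type} {d : ℕ} (x : Matrix (κ × Fin d) (μ × Fin d) ℂ) : BEQ_m (BEQ_u x) d = x := by
  ext ⟨a, i⟩ ⟨b, j⟩
  unfold BEQ_m BEQ_u
  rw [dif_pos ⟨i.2, j.2⟩]

theorem BEQ_mul {κ μ ν : Type} [Fintype μ] (G : κ → μ → ℕ → ℕ → ℂ) (G' : μ → ν → ℕ → ℕ → ℂ) (d : ℕ) :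
    BEQ_m G d * BEQ_m G' d =
      BEQ_m (fun a c i j => ∑ b : μ, ∑ k ∈ range d, G a b i k * G' b c k j) d := by
  ext ⟨a, i⟩ ⟨c, j⟩
  rw [Matrix.mul_apply, Fintype.sum_prod_type]
  refine Finset.sum_congr rfl fun b _ => ?_
  exact (Finset.sum_range (fun k => G a b i k * G' b c k j)).symm

theorem BEQ_ext {κ μ : Type} (G G' : κ → μ → ℕ → ℕ → ℂ) (d : ℕ) :
    BEQ_m G d = BEQ_m G' d ↔ ∀ a b i j, i < d → j < d → G a b i j = G' a b i j := by
  constructor
  · intro h a b i j hi hj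
    exact congrFun (congrFun h (a, ⟨i, hi⟩)) (b, ⟨j, hj⟩)
  · intro h
    ext ⟨a, i⟩ ⟨b, j⟩
    exact h a b i j i.2 j.2

theorem BEQ_tr {κ : Type} [Fintype κ] (G : κ → κ → ℕ → ℕ → ℂ) (d : ℕ) :
    (BEQ_m G d).trace = ∑ a : κ, ∑ i ∈ range d, G a a i i := by
  rw [Matrix.trace, Fintype.sum_prod_type]
  refine Finset.sum_congr rfl fun a _ => ?_
  exact (Finset.sum_range (fun i => G a a i i)).symm

/-- the image of a matrix over a ring under a homomorphism to matrices -/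
def BEQ_b {R : Type} [Ring R] {κ μ : Type} {d : ℕ} (π : R →+* Matrix (Fin d) (Fin d) ℂ)
    (P : Matrix κ μ R) : Matrix (κ × Fin d) (μ × Fin d) ℂ := fun p q => π (P p.1 q.1) p.2 q.2

theorem BEQ_big {R : Type} [Ring R] {κ μ ν : Type} [Fintype μ] {d : ℕ}
    (π : R →+* Matrix (Fin d) (Fin d) ℂ) (P : Matrix κ μ R) (Q : Matrix μ ν R) :
    BEQ_b π (P * Q) = BEQ_b π P * BEQ_b π Q := by
  ext ⟨a, i⟩ ⟨c, j⟩
  rw [Matrix.mul_apply, Fintype.sum_prod_type]
  unfold BEQ_b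
  rw [Matrix.mul_apply, map_sum, Matrix.sum_apply]
  refine Finset.sum_congr rfl fun b _ => ?_
  rw [map_mul, Matrix.mul_apply]

/-! ### words -/

theorem BEQ_mem (h : ℕ → ℕ) (u : List ℕ) (i : ℕ) (hi : i < (u.map h).sum) :
    (fl h u i).1 ∈ u ∧ (fl h u i).2 < h (fl h u i).1 := by
  induction u generalizing i with
  | nil => simp at hi
  | cons a u ih =>
    rw [List.map_cons, List.sum_cons] at hi
    unfold fl
    split_ifs with h1
    · exact ⟨List.mem_cons_self, h1⟩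
    · obtain ⟨h2, h3⟩ := ih (i - h a) (by omega)
      exact ⟨List.mem_cons_of_mem _ h2, h3⟩

theorem BEQ_bdc (hBDM : BDM_stmt) (h : ℕ → ℕ) (u : List ℕ) (x x' : ℕ → ℕ → ℕ → ℂ)
    (hx : ∀ v ∈ u, ∀ p q, p < h v → q < h v → x v p q = x' v p q) (i j : ℕ)
    (hi : i < (u.map h).sum) (hj : j < (u.map h).sum) : bd h u x i j = bd h u x' i j := by
  unfold bd
  split_ifs with h1
  · obtain ⟨h2, h3⟩ := BEQ_mem h u i hi
    obtain ⟨-, h4⟩ := BEQ_mem h u j hj
    have h5 := ((hBDM h u).2.2.2.1 i j hi hj h1).1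
    exact hx _ h2 _ _ h3 (by rw [h5]; exact h4)
  · rfl

theorem BEQ_bd1 (h : ℕ → ℕ) (v : ℕ) (x : ℕ → ℕ → ℕ → ℂ) (i j : ℕ) (hi : i < h v) (hj : j < h v) :
    bd h [v] x i j = x v i j := by
  simp [bd, fp, fl, hi, hj]

theorem BEQ_blk (hBDM : BDM_stmt) {κ μ ν : Type} [Fintype μ] (h : ℕ → ℕ) (u : List ℕ) (d : ℕ)
    (hu : (u.map h).sum = d) (x : κ → μ → ℕ → ℕ → ℕ → ℂ) (y : μ → ν → ℕ → ℕ → ℕ → ℂ)
    (z : κ → ν → ℕ → ℕ → ℕ → ℂ)
    (hxy : ∀ v ∈ u, BEQ_m (fun a b => x a b v) (h v) * BEQ_m (fun a b => y a b v) (h v) =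
      BEQ_m (fun a b => z a b v) (h v)) :
    BEQ_m (fun a b => bd h u (x a b)) d * BEQ_m (fun a b => bd h u (y a b)) d =
      BEQ_m (fun a b => bd h u (z a b)) d := by
  subst hu
  rw [BEQ_mul, BEQ_ext]
  intro a c i j hi hj
  rw [(hBDM h u).1 μ (fun b => x a b) (fun b => y b c) i j hi hj]
  refine BEQ_bdc hBDM h u _ _ ?_ i j hi hj
  intro v hv p q hp hq
  have h1 := hxy v hv
  rw [BEQ_mul, BEQ_ext] at h1
  exact h1 a c p q hp hq

/-! ### the vertices -/

theorem BEQ_vx (hTRI : TRI_stmt) {ι κ : Type} [Fintype ι] [DecidableEq ι] [Fintype κ] [DecidableEq κ]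
    (P : Matrix ι ι ℂ) (Q : Matrix κ κ ℂ) (hP : P * P = P) (hQ : Q * Q = Q) (ht : P.trace = Q.trace) :
    ∃ (x : Matrix ι κ ℂ) (y : Matrix κ ι ℂ), x * y = P ∧ y * x = Q ∧ P * x = x ∧ Q * y = y := by
  obtain ⟨r, x, y, h1, h2, h3⟩ := hTRI ι P hP
  obtain ⟨r', x', y', h1', h2', h3'⟩ := hTRI κ Q hQ
  have hr : r = r' := by
    rw [h1, h1'] at ht
    exact_mod_cast ht
  subst hr
  refine ⟨x * y', x' * y, ?_, ?_, ?_, ?_⟩
  · rw [Matrix.mul_assoc, ← Matrix.mul_assoc y' x' y, h3', Matrix.one_mul, h2]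
  · rw [Matrix.mul_assoc, ← Matrix.mul_assoc y x y', h3, Matrix.one_mul, h2']
  · rw [← h2, Matrix.mul_assoc, ← Matrix.mul_assoc y x y', h3, Matrix.one_mul]
  · rw [← h2', Matrix.mul_assoc, ← Matrix.mul_assoc y' x' y, h3', Matrix.one_mul]

/-! ### the bands -/

theorem BEQ_cm {κ : Type} (P : κ → κ → ℝ → ℕ → ℕ → ℂ) (d : ℕ)
    (hP : ∀ a b i j, i < d → j < d → ContinuousOn (fun s => P a b s i j) U) :
    Continuous fun s : unitInterval => BEQ_m (fun a b => P a b (s : ℝ)) d := by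
  refine continuous_matrix fun p q => ?_
  exact continuousOn_iff_continuous_domRestrict.1 (hP p.1 q.1 p.2 q.2 p.2.2 q.2.2)

theorem BEQ_band (hBEX : BEX_stmt) (hBDM : BDM_stmt) {κ μ : Type} [Fintype κ] [DecidableEq κ]
    [Fintype μ] [DecidableEq μ] (h : ℕ → ℕ) (u : Bool → List ℕ) (d : ℕ)
    (hu : ∀ b, ((u b).map h).sum = d) (P : κ → κ → ℝ → ℕ → ℕ → ℂ) (Q : μ → μ → ℝ → ℕ → ℕ → ℂ)
    (hPc : ∀ a b i j, i < d → j < d → ContinuousOn (fun s => P a b s i j) U)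
    (hQc : ∀ a b i j, i < d → j < d → ContinuousOn (fun s => Q a b s i j) U)
    (hP : ∀ s ∈ U, BEQ_m (fun a b => P a b s) d * BEQ_m (fun a b => P a b s) d =
      BEQ_m (fun a b => P a b s) d)
    (hQ : ∀ s ∈ U, BEQ_m (fun a b => Q a b s) d * BEQ_m (fun a b => Q a b s) d =
      BEQ_m (fun a b => Q a b s) d)
    (x : κ → μ → ℕ → ℕ → ℕ → ℂ) (y : μ → κ → ℕ → ℕ → ℕ → ℂ) (p : κ → κ → ℕ → ℕ → ℕ → ℂ)
    (q : μ → μ → ℕ → ℕ → ℕ → ℂ)
    (hPe : ∀ (b : Bool) a a' i j, i < d → j < d → P a a' (if b then 1 else 0) i j = bd h (u b) (p a a') i j)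
    (hQe : ∀ (b : Bool) a a' i j, i < d → j < d → Q a a' (if b then 1 else 0) i j = bd h (u b) (q a a') i j)
    (hv : ∀ b, ∀ v ∈ u b,
      BEQ_m (fun a b => x a b v) (h v) * BEQ_m (fun a b => y a b v) (h v) = BEQ_m (fun a b => p a b v) (h v) ∧
      BEQ_m (fun a b => y a b v) (h v) * BEQ_m (fun a b => x a b v) (h v) = BEQ_m (fun a b => q a b v) (h v) ∧
      BEQ_m (fun a b => p a b v) (h v) * BEQ_m (fun a b => x a b v) (h v) = BEQ_m (fun a b => x a b v) (h v) ∧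
      BEQ_m (fun a b => q a b v) (h v) * BEQ_m (fun a b => y a b v) (h v) = BEQ_m (fun a b => y a b v) (h v)) :
    ∃ (X : κ → μ → ℝ → ℕ → ℕ → ℂ) (Y : μ → κ → ℝ → ℕ → ℕ → ℂ),
      (∀ s ∈ U, BEQ_m (fun a b => X a b s) d * BEQ_m (fun a b => Y a b s) d = BEQ_m (fun a b => P a b s) d ∧
        BEQ_m (fun a b => Y a b s) d * BEQ_m (fun a b => X a b s) d = BEQ_m (fun a b => Q a b s) d) ∧
      (∀ a b i j, i < d → j < d → ContinuousOn (fun s => X a b s i j) U ∧
        ContinuousOn (fun s => Y b a s i j) U) ∧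
      ∀ (c : Bool) a b i j, i < d → j < d → X a b (if c then 1 else 0) i j = bd h (u c) (x a b) i j ∧
        Y b a (if c then 1 else 0) i j = bd h (u c) (y b a) i j := by
  have hPe' : ∀ c : Bool, BEQ_m (fun a b => bd h (u c) (p a b)) d =
      BEQ_m (fun a b => P a b (if c then 1 else 0)) d := fun c =>
    (BEQ_ext _ _ d).2 fun a b i j hi hj => (hPe c a b i j hi hj).symm
  have hQe' : ∀ c : Bool, BEQ_m (fun a b => bd h (u c) (q a b)) d =
      BEQ_m (fun a b => Q a b (if c then 1 else 0)) d := fun c =>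
    (BEQ_ext _ _ d).2 fun a b i j hi hj => (hQe c a b i j hi hj).symm
  have k1 : ∀ c : Bool, BEQ_m (fun a b => bd h (u c) (x a b)) d * BEQ_m (fun a b => bd h (u c) (y a b)) d =
      BEQ_m (fun a b => P a b (if c then 1 else 0)) d := fun c => by
    rw [← hPe' c]
    exact BEQ_blk hBDM h (u c) d (hu c) x y p fun v hv' => (hv c v hv').1
  have k2 : ∀ c : Bool, BEQ_m (fun a b => bd h (u c) (y a b)) d * BEQ_m (fun a b => bd h (u c) (x a b)) d =
      BEQ_m (fun a b => Q a b (if c then 1 else 0)) d := fun c => by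
    rw [← hQe' c]
    exact BEQ_blk hBDM h (u c) d (hu c) y x q fun v hv' => (hv c v hv').2.1
  have k3 : ∀ c : Bool, BEQ_m (fun a b => P a b (if c then 1 else 0)) d *
      BEQ_m (fun a b => bd h (u c) (x a b)) d = BEQ_m (fun a b => bd h (u c) (x a b)) d := fun c => by
    rw [← hPe' c]
    exact BEQ_blk hBDM h (u c) d (hu c) p x x fun v hv' => (hv c v hv').2.2.1
  have k4 : ∀ c : Bool, BEQ_m (fun a b => Q a b (if c then 1 else 0)) d *
      BEQ_m (fun a b => bd h (u c) (y a b)) d = BEQ_m (fun a b => bd h (u c) (y a b)) d := fun c => by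
    rw [← hQe' c]
    exact BEQ_blk hBDM h (u c) d (hu c) q y y fun v hv' => (hv c v hv').2.2.2
  obtain ⟨X, Y, hX0, hX1, hY0, hY1, hXY⟩ := hBEX (κ × Fin d) (μ × Fin d)
    ⟨fun s => BEQ_m (fun a b => P a b (s : ℝ)) d, BEQ_cm P d hPc⟩
    ⟨fun s => BEQ_m (fun a b => Q a b (s : ℝ)) d, BEQ_cm Q d hQc⟩
    (fun s => hP s s.2) (fun s => hQ s s.2)
    (BEQ_m (fun a b => bd h (u false) (x a b)) d) (BEQ_m (fun a b => bd h (u true) (x a b)) d)
    (BEQ_m (fun a b => bd h (u false) (y a b)) d) (BEQ_m (fun a b => bd h (u true) (y a b)) d)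
    (by simpa using k1 false) (by simpa using k2 false) (by simpa using k1 true) (by simpa using k2 true)
    (by simpa using k3 false) (by simpa using k4 false) (by simpa using k3 true) (by simpa using k4 true)
  refine ⟨fun a b s => if hs : s ∈ U then BEQ_u (X ⟨s, hs⟩) a b else 0,
    fun a b s => if hs : s ∈ U then BEQ_u (Y ⟨s, hs⟩) a b else 0, ?_, ?_, ?_⟩
  · intro s hs
    simp only [hs, dif_pos]
    have e1 : BEQ_m (fun a b => BEQ_u (X ⟨s, hs⟩) a b) d = X ⟨s, hs⟩ := BEQ_mu _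
    have e2 : BEQ_m (fun a b => BEQ_u (Y ⟨s, hs⟩) a b) d = Y ⟨s, hs⟩ := BEQ_mu _
    rw [e1, e2]
    exact hXY ⟨s, hs⟩
  · intro a b i j hi hj
    constructor
    · rw [continuousOn_iff_continuous_domRestrict]
      have e : U.domRestrict (fun s => (if hs : s ∈ U then BEQ_u (X ⟨s, hs⟩) a b else 0) i j) =
          fun s : U => X s (a, ⟨i, hi⟩) (b, ⟨j, hj⟩) := by
        funext s
        rw [Set.domRestrict_apply, dif_pos s.2]
        unfold BEQ_u
        rw [dif_pos ⟨hi, hj⟩]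
      rw [e]
      exact X.continuous.matrix_elem _ _
    · rw [continuousOn_iff_continuous_domRestrict]
      have e : U.domRestrict (fun s => (if hs : s ∈ U then BEQ_u (Y ⟨s, hs⟩) b a else 0) i j) =
          fun s : U => Y s (b, ⟨i, hi⟩) (a, ⟨j, hj⟩) := by
        funext s
        rw [Set.domRestrict_apply, dif_pos s.2]
        unfold BEQ_u
        rw [dif_pos ⟨hi, hj⟩]
      rw [e]
      exact Y.continuous.matrix_elem _ _
  · have h0 : (0 : ℝ) ∈ U := ⟨le_rfl, zero_le_one⟩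
    have h1 : (1 : ℝ) ∈ U := ⟨zero_le_one, le_rfl⟩
    have hX0' : X ⟨0, h0⟩ = BEQ_m (fun a b => bd h (u false) (x a b)) d := hX0
    have hX1' : X ⟨1, h1⟩ = BEQ_m (fun a b => bd h (u true) (x a b)) d := hX1
    have hY0' : Y ⟨0, h0⟩ = BEQ_m (fun a b => bd h (u false) (y a b)) d := hY0
    have hY1' : Y ⟨1, h1⟩ = BEQ_m (fun a b => bd h (u true) (y a b)) d := hY1
    intro c a b i j hi hj
    cases c
    · simp only [Bool.false_eq_true, if_false, h0, dif_pos]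
      rw [hX0', hY0']
      unfold BEQ_u
      rw [dif_pos ⟨hi, hj⟩, dif_pos ⟨hi, hj⟩]
      exact ⟨rfl, rfl⟩
    · simp only [if_true, h1, dif_pos]
      rw [hX1', hY1']
      unfold BEQ_u
      rw [dif_pos ⟨hi, hj⟩, dif_pos ⟨hi, hj⟩]
      exact ⟨rfl, rfl⟩

/-! ### the theorem -/

set_option linter.unusedVariables false in
theorem BEQ (hBEX : BEX_stmt) (hTRI : TRI_stmt) (hBDM : BDM_stmt) (hBFX : BFX_stmt) (hBFG : BFG_stmt) (hBFE : BFE_stmt) (hBFA : BFA_stmt) (hBFM : BFM_stmt) (hBEV : BEV_stmt) : BEQ_stmt := by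
  intro B M _ α A _ ι u c hC S hS m κ μ _ _ _ _ E F hE hF GE₀ GF₀ hGE₀ hGF₀ htr
  have hl : IsLv (B.L m) := hC.bs.lv m
  -- families which are continuous
  have hGE : ∀ a b, ∃ G, IsFm (B.L m) G ∧ Fam B c m (E a b : A) G := fun a b =>
    hBFG B M α A ι u c hC m (E a b : A) ((hS.mem m _).1 (E a b).2)
  have hGF : ∀ a b, ∃ G, IsFm (B.L m) G ∧ Fam B c m (F a b : A) G := fun a b =>
    hBFG B M α A ι u c hC m (F a b : A) ((hS.mem m _).1 (F a b).2)
  choose GE hGE1 hGE2 using hGE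
  choose GF hGF1 hGF2 using hGF
  have hEE : ∀ a b e s i j, e < (B.L m).N → s ∈ U → i < (B.L m).h e → j < (B.L m).h e →
      GE a b e s i j = GE₀ a b e s i j := fun a b =>
    (hBFE B M α A ι u c hC m _ _ _ _ ((hS.mem m _).1 (E a b).2) ((hS.mem m _).1 (E a b).2)
      (hGE2 a b) (hGE₀ a b)).1 rfl
  have hFF : ∀ a b e s i j, e < (B.L m).N → s ∈ U → i < (B.L m).h e → j < (B.L m).h e →
      GF a b e s i j = GF₀ a b e s i j := fun a b =>
    (hBFE B M α A ι u c hC m _ _ _ _ ((hS.mem m _).1 (F a b).2) ((hS.mem m _).1 (F a b).2)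
      (hGF2 a b) (hGF₀ a b)).1 rfl
  -- idempotent values
  have hEi : ∀ e s, e < (B.L m).N → s ∈ U →
      BEQ_m (fun a b => GE a b e s) ((B.L m).h e) * BEQ_m (fun a b => GE a b e s) ((B.L m).h e) =
        BEQ_m (fun a b => GE a b e s) ((B.L m).h e) := by
    intro e s he hs
    obtain ⟨π, hπ⟩ := hBEV B M α A ι u c hC S hS m e s he hs
    have h1 : BEQ_b π E = BEQ_m (fun a b => GE a b e s) ((B.L m).h e) := by
      ext ⟨a, i⟩ ⟨b, j⟩
      exact hπ (E a b) (GE a b) (hGE2 a b) i j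
    rw [← h1, ← BEQ_big, hE]
  have hFi : ∀ e s, e < (B.L m).N → s ∈ U →
      BEQ_m (fun a b => GF a b e s) ((B.L m).h e) * BEQ_m (fun a b => GF a b e s) ((B.L m).h e) =
        BEQ_m (fun a b => GF a b e s) ((B.L m).h e) := by
    intro e s he hs
    obtain ⟨π, hπ⟩ := hBEV B M α A ι u c hC S hS m e s he hs
    have h1 : BEQ_b π F = BEQ_m (fun a b => GF a b e s) ((B.L m).h e) := by
      ext ⟨a, i⟩ ⟨b, j⟩
      exact hπ (F a b) (GF a b) (hGF2 a b) i j
    rw [← h1, ← BEQ_big, hF]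
  have h0U : (0 : ℝ) ∈ U := ⟨le_rfl, zero_le_one⟩
  -- the vertices
  have hvx : ∀ v, ∃ (x : κ → μ → ℕ → ℕ → ℂ) (y : μ → κ → ℕ → ℕ → ℂ), v < (B.L m).n →
      BEQ_m x ((B.L m).h v) * BEQ_m y ((B.L m).h v) = BEQ_m (fun a b => GE a b v 0) ((B.L m).h v) ∧
      BEQ_m y ((B.L m).h v) * BEQ_m x ((B.L m).h v) = BEQ_m (fun a b => GF a b v 0) ((B.L m).h v) ∧
      BEQ_m (fun a b => GE a b v 0) ((B.L m).h v) * BEQ_m x ((B.L m).h v) = BEQ_m x ((B.L m).h v) ∧
      BEQ_m (fun a b => GF a b v 0) ((B.L m).h v) * BEQ_m y ((B.L m).h v) = BEQ_m y ((B.L m).h v) := by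
    intro v
    by_cases hv : v < (B.L m).n
    · have hvN : v < (B.L m).N := lt_of_lt_of_le hv hl.nN
      obtain ⟨x, y, h1, h2, h3, h4⟩ := BEQ_vx hTRI (BEQ_m (fun a b => GE a b v 0) ((B.L m).h v))
        (BEQ_m (fun a b => GF a b v 0) ((B.L m).h v)) (hEi v 0 hvN h0U) (hFi v 0 hvN h0U) (by
          rw [BEQ_tr, BEQ_tr]
          have e1 : ∑ a : κ, ∑ i ∈ range ((B.L m).h v), GE a a v 0 i i =
              ∑ a : κ, ∑ i ∈ range ((B.L m).h v), GE₀ a a v 0 i i := by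
            refine Finset.sum_congr rfl fun a _ => Finset.sum_congr rfl fun i hi => ?_
            rw [Finset.mem_range] at hi
            exact hEE a a v 0 i i hvN h0U hi hi
          have e2 : ∑ a : μ, ∑ i ∈ range ((B.L m).h v), GF a a v 0 i i =
              ∑ a : μ, ∑ i ∈ range ((B.L m).h v), GF₀ a a v 0 i i := by
            refine Finset.sum_congr rfl fun a _ => Finset.sum_congr rfl fun i hi => ?_
            rw [Finset.mem_range] at hi
            exact hFF a a v 0 i i hvN h0U hi hi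
          rw [e1, e2]
          exact htr v hv)
      refine ⟨BEQ_u x, BEQ_u y, fun _ => ?_⟩
      rw [BEQ_mu, BEQ_mu]
      exact ⟨h1, h2, h3, h4⟩
    · exact ⟨0, 0, fun h => absurd h hv⟩
  choose xx yy hxy using hvx
  -- the letters
  have hlt : ∀ e, ∃ (X : κ → μ → ℝ → ℕ → ℕ → ℂ) (Y : μ → κ → ℝ → ℕ → ℕ → ℂ), e < (B.L m).N →
      (∀ s ∈ U, BEQ_m (fun a b => X a b s) ((B.L m).h e) * BEQ_m (fun a b => Y a b s) ((B.L m).h e) =
          BEQ_m (fun a b => GE a b e s) ((B.L m).h e) ∧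
        BEQ_m (fun a b => Y a b s) ((B.L m).h e) * BEQ_m (fun a b => X a b s) ((B.L m).h e) =
          BEQ_m (fun a b => GF a b e s) ((B.L m).h e)) ∧
      (∀ a b i j, i < (B.L m).h e → j < (B.L m).h e → ContinuousOn (fun s => X a b s i j) U ∧
        ContinuousOn (fun s => Y b a s i j) U) ∧
      (∀ (q : Bool) a b i j, i < (B.L m).h e → j < (B.L m).h e →
        X a b (if q then 1 else 0) i j = bd (B.L m).h ((B.L m).W e q) (fun v => xx v a b) i j ∧
        Y b a (if q then 1 else 0) i j = bd (B.L m).h ((B.L m).W e q) (fun v => yy v b a) i j) ∧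
      (e < (B.L m).n → ∀ s ∈ U, ∀ a b i j, i < (B.L m).h e → j < (B.L m).h e →
        X a b s i j = X a b 0 i j ∧ Y b a s i j = Y b a 0 i j) := by
    intro e
    by_cases heN : e < (B.L m).N
    · by_cases hen : e < (B.L m).n
      · refine ⟨fun a b _ => xx e a b, fun b a _ => yy e b a, fun _ => ⟨fun s hs => ?_, ?_, ?_, ?_⟩⟩
        · obtain ⟨h1, h2, -, -⟩ := hxy e hen
          have e1 : BEQ_m (fun a b => GE a b e s) ((B.L m).h e) =
              BEQ_m (fun a b => GE a b e 0) ((B.L m).h e) :=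
            (BEQ_ext _ _ _).2 fun a b i j hi hj => (hGE1 a b).vtx e s i j hen hs hi hj
          have e2 : BEQ_m (fun a b => GF a b e s) ((B.L m).h e) =
              BEQ_m (fun a b => GF a b e 0) ((B.L m).h e) :=
            (BEQ_ext _ _ _).2 fun a b i j hi hj => (hGF1 a b).vtx e s i j hen hs hi hj
          rw [e1, e2]
          exact ⟨h1, h2⟩
        · intro a b i j _ _
          exact ⟨continuousOn_const, continuousOn_const⟩
        · intro q a b i j hi hj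
          rw [hl.vtx e hen q, BEQ_bd1 _ _ _ _ _ hi hj, BEQ_bd1 _ _ _ _ _ hi hj]
          exact ⟨rfl, rfl⟩
        · intro _ s _ a b i j _ _
          exact ⟨rfl, rfl⟩
      · obtain ⟨X, Y, h1, h2, h3⟩ := BEQ_band hBEX hBDM (B.L m).h ((B.L m).W e) ((B.L m).h e)
          (hl.ht e heN) (fun a b s => GE a b e s) (fun a b s => GF a b e s)
          (fun a b i j hi hj => (hGE1 a b).cont e i j heN hi hj)
          (fun a b i j hi hj => (hGF1 a b).cont e i j heN hi hj)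
          (fun s hs => hEi e s heN hs) (fun s hs => hFi e s heN hs)
          (fun a b v => xx v a b) (fun a b v => yy v a b)
          (fun a b v => GE a b v 0) (fun a b v => GF a b v 0)
          (fun q a b i j hi hj => (hGE1 a b).ends e i j q heN hi hj)
          (fun q a b i j hi hj => (hGF1 a b).ends e i j q heN hi hj)
          (fun q v hv => hxy v (hl.mem e heN q v hv))
        exact ⟨X, Y, fun _ => ⟨h1, h2, h3, fun h => absurd h hen⟩⟩
    · exact ⟨0, 0, fun h => absurd h heN⟩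
  choose XX YY hXY using hlt
  have hX : ∀ a b, IsFm (B.L m) (fun e s => XX e a b s) := by
    intro a b
    refine ⟨fun e i j he hi hj => ((hXY e he).2.1 a b i j hi hj).1, fun e s i j he hs hi hj => ?_,
      fun e i j q he hi hj => ?_⟩
    · exact ((hXY e (lt_of_lt_of_le he hl.nN)).2.2.2 he s hs a b i j hi hj).1
    · rw [((hXY e he).2.2.1 q a b i j hi hj).1]
      have hsum : ∀ k, k < (B.L m).h e → k < (((B.L m).W e q).map (B.L m).h).sum := fun k hk => by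
        rw [hl.ht e he q]; exact hk
      refine BEQ_bdc hBDM _ _ _ _ ?_ i j (hsum i hi) (hsum j hj)
      intro v hv p r hp hr
      have hvn := hl.mem e he q v hv
      have h1 := ((hXY v (lt_of_lt_of_le hvn hl.nN)).2.2.1 false a b p r hp hr).1
      rw [hl.vtx v hvn false, BEQ_bd1 _ _ _ _ _ hp hr] at h1
      simp only [Bool.false_eq_true, if_false] at h1
      exact h1.symm
  have hY : ∀ b a, IsFm (B.L m) (fun e s => YY e b a s) := by
    intro b a
    refine ⟨fun e i j he hi hj => ((hXY e he).2.1 a b i j hi hj).2, fun e s i j he hs hi hj => ?_,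
      fun e i j q he hi hj => ?_⟩
    · exact ((hXY e (lt_of_lt_of_le he hl.nN)).2.2.2 he s hs a b i j hi hj).2
    · rw [((hXY e he).2.2.1 q a b i j hi hj).2]
      have hsum : ∀ k, k < (B.L m).h e → k < (((B.L m).W e q).map (B.L m).h).sum := fun k hk => by
        rw [hl.ht e he q]; exact hk
      refine BEQ_bdc hBDM _ _ _ _ ?_ i j (hsum i hi) (hsum j hj)
      intro v hv p r hp hr
      have hvn := hl.mem e he q v hv
      have h1 := ((hXY v (lt_of_lt_of_le hvn hl.nN)).2.2.1 false a b p r hp hr).2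
      rw [hl.vtx v hvn false, BEQ_bd1 _ _ _ _ _ hp hr] at h1
      simp only [Bool.false_eq_true, if_false] at h1
      exact h1.symm
  have hx : ∀ a b, ∃ x : A, InS B ι u c m x ∧ Fam B c m x (fun e s => XX e a b s) := fun a b =>
    hBFX B M α A ι u c hC m _ (hX a b)
  have hy : ∀ b a, ∃ y : A, InS B ι u c m y ∧ Fam B c m y (fun e s => YY e b a s) := fun b a =>
    hBFX B M α A ι u c hC m _ (hY b a)
  choose x hx1 hx2 using hx
  choose y hy1 hy2 using hy
  refine ⟨fun a b => ⟨x a b, (hS.mem m _).2 (hx1 a b)⟩, fun b a => ⟨y b a, (hS.mem m _).2 (hy1 b a)⟩,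
    ?_, ?_⟩
  · set x' : Matrix κ μ (S m) := fun a b => ⟨x a b, (hS.mem m _).2 (hx1 a b)⟩ with hx'
    set y' : Matrix μ κ (S m) := fun b a => ⟨y b a, (hS.mem m _).2 (hy1 b a)⟩ with hy'
    funext a b
    apply Subtype.ext
    obtain ⟨G₁, -, hG₁⟩ := hBFG B M α A ι u c hC m (((x' * y') a b : S m) : A)
      ((hS.mem m _).1 ((x' * y') a b).2)
    refine (hBFE B M α A ι u c hC m _ _ _ _ ((hS.mem m _).1 ((x' * y') a b).2)
      ((hS.mem m _).1 (E a b).2) hG₁ (hGE2 a b)).2 ?_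
    intro e s i j he hs hi hj
    obtain ⟨π, hπ⟩ := hBEV B M α A ι u c hC S hS m e s he hs
    have h1 : BEQ_b π x' = BEQ_m (fun a b => XX e a b s) ((B.L m).h e) := by
      ext ⟨a, i⟩ ⟨b, j⟩
      exact hπ (x' a b) _ (hx2 a b) i j
    have h2 : BEQ_b π y' = BEQ_m (fun b a => YY e b a s) ((B.L m).h e) := by
      ext ⟨b, i⟩ ⟨a, j⟩
      exact hπ (y' b a) _ (hy2 b a) i j
    have h3 := BEQ_big π x' y'
    rw [h1, h2, ((hXY e he).1 s hs).1] at h3
    have h4 := congrFun (congrFun h3 (a, ⟨i, hi⟩)) (b, ⟨j, hj⟩)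
    have h5 := hπ ((x' * y') a b) G₁ hG₁ ⟨i, hi⟩ ⟨j, hj⟩
    exact h5.symm.trans h4
  · set x' : Matrix κ μ (S m) := fun a b => ⟨x a b, (hS.mem m _).2 (hx1 a b)⟩ with hx'
    set y' : Matrix μ κ (S m) := fun b a => ⟨y b a, (hS.mem m _).2 (hy1 b a)⟩ with hy'
    funext a b
    apply Subtype.ext
    obtain ⟨G₁, -, hG₁⟩ := hBFG B M α A ι u c hC m (((y' * x') a b : S m) : A)
      ((hS.mem m _).1 ((y' * x') a b).2)
    refine (hBFE B M α A ι u c hC m _ _ _ _ ((hS.mem m _).1 ((y' * x') a b).2)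
      ((hS.mem m _).1 (F a b).2) hG₁ (hGF2 a b)).2 ?_
    intro e s i j he hs hi hj
    obtain ⟨π, hπ⟩ := hBEV B M α A ι u c hC S hS m e s he hs
    have h1 : BEQ_b π x' = BEQ_m (fun a b => XX e a b s) ((B.L m).h e) := by
      ext ⟨a, i⟩ ⟨b, j⟩
      exact hπ (x' a b) _ (hx2 a b) i j
    have h2 : BEQ_b π y' = BEQ_m (fun b a => YY e b a s) ((B.L m).h e) := by
      ext ⟨b, i⟩ ⟨a, j⟩
      exact hπ (y' b a) _ (hy2 b a) i j
    have h3 := BEQ_big π y' x'
    rw [h1, h2, ((hXY e he).1 s hs).2] at h3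
    have h4 := congrFun (congrFun h3 (a, ⟨i, hi⟩)) (b, ⟨j, hj⟩)
    have h5 := hπ ((y' * x') a b) G₁ hG₁ ⟨i, hi⟩ ⟨j, hj⟩
    exact h5.symm.trans h4

end Pool.Agent.BND
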