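import Pool.Agent.helper53.BND.SpecL

/-!
# Row bnd:LPF (MP_376aaf_an): null homotopic units with prescribed values at the vertices
-/

set_option autoImplicit false

open scoped Topology Matrix
open Filter Finset

namespace Pool.Agent.BND

open Pool.Agent.CZ Pool.Agent.PV

/-- the entries of a matrix -/
def LPF_u {κ : Type} {d : ℕ} (x : Matrix (κ × Fin d) (κ × Fin d) ℂ) (a b : κ) (i j : ℕ) : ℂ :=
  if hij : i < d ∧ j < d then x (a, ⟨i, hij.1⟩) (b, ⟨j, hij.2⟩) else 0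

theorem LPF_uc {κ X : Type} [TopologicalSpace X] {d : ℕ} (f : X → Matrix (κ × Fin d) (κ × Fin d) ℂ)
    (hf : Continuous f) (a b : κ) (i j : ℕ) : Continuous fun t => LPF_u (f t) a b i j := by
  by_cases h : i < d ∧ j < d
  · have e : (fun t => LPF_u (f t) a b i j) = fun t => f t (a, ⟨i, h.1⟩) (b, ⟨j, h.2⟩) := by
      funext t
      unfold LPF_u
      rw [dif_pos h]
    rw [e]
    exact hf.matrix_elem _ _
  · have e : (fun t => LPF_u (f t) a b i j) = fun _ => 0 := by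
      funext t
      unfold LPF_u
      rw [dif_neg h]
    rw [e]
    exact continuous_const

theorem LPF_ue {κ : Type} {d : ℕ} (x : Matrix (κ × Fin d) (κ × Fin d) ℂ) (a b : κ) (i j : Fin d) :
    LPF_u x a b i j = x (a, i) (b, j) := by
  unfold LPF_u
  rw [dif_pos ⟨i.2, j.2⟩]

theorem LPF_mu {κ : Type} {d : ℕ} (x : Matrix (κ × Fin d) (κ × Fin d) ℂ) :
    (Matrix.of fun p q : κ × Fin d => LPF_u x p.1 q.1 p.2 q.2) = x := by
  ext ⟨a, i⟩ ⟨b, j⟩
  exact LPF_ue x a b i j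

theorem LPF_u1 {κ : Type} [DecidableEq κ] {d : ℕ} (a b : κ) (i j : ℕ) (hi : i < d) (hj : j < d) :
    LPF_u (1 : Matrix (κ × Fin d) (κ × Fin d) ℂ) a b i j = if a = b ∧ i = j then 1 else 0 := by
  unfold LPF_u
  rw [dif_pos ⟨hi, hj⟩, Matrix.one_apply]
  have e : ((a, (⟨i, hi⟩ : Fin d)) = (b, (⟨j, hj⟩ : Fin d))) ↔ (a = b ∧ i = j) := by
    rw [Prod.mk.injEq, Fin.mk.injEq]
  by_cases h : a = b ∧ i = j
  · rw [if_pos (e.2 h), if_pos h]
  · rw [if_neg (fun h' => h (e.1 h')), if_neg h]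

theorem LPF_mem (h : ℕ → ℕ) (u : List ℕ) (i : ℕ) (hi : i < (u.map h).sum) :
    (fl h u i).1 ∈ u ∧ (fl h u i).2 < h (fl h u i).1 := by
  induction u generalizing i with
  | nil => simp at hi
  | cons a u ih =>
    rw [List.map_cons, List.sum_cons] at hi
    unfold fl
    split_ifs with h1
    · exact ⟨List.mem_cons_self, h1⟩
    · obtain ⟨h2, h3⟩ := ih (i - h a) (by omega)
      exact ⟨List.mem_cons_of_mem _ h2, h3⟩

theorem LPF_bdc (hBDM : BDM_stmt) (h : ℕ → ℕ) (u : List ℕ) (x x' : ℕ → ℕ → ℕ → ℂ)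
    (hx : ∀ v ∈ u, ∀ p q, p < h v → q < h v → x v p q = x' v p q) (i j : ℕ)
    (hi : i < (u.map h).sum) (hj : j < (u.map h).sum) : bd h u x i j = bd h u x' i j := by
  unfold bd
  split_ifs with h1
  · obtain ⟨h2, h3⟩ := LPF_mem h u i hi
    obtain ⟨-, h4⟩ := LPF_mem h u j hj
    have h5 := ((hBDM h u).2.2.2.1 i j hi hj h1).1
    exact hx _ h2 _ _ h3 (by rw [h5]; exact h4)
  · rfl

theorem LPF_bd1 (h : ℕ → ℕ) (v : ℕ) (x : ℕ → ℕ → ℕ → ℂ) (i j : ℕ) (hi : i < h v) (hj : j < h v) :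
    bd h [v] x i j = x v i j := by
  simp [bd, fp, fl, hi, hj]

theorem LPF_bdt {X : Type} [TopologicalSpace X] (h : ℕ → ℕ) (u : List ℕ) (x : X → ℕ → ℕ → ℕ → ℂ)
    (hx : ∀ v i j, Continuous fun t => x t v i j) (i j : ℕ) :
    Continuous fun t => bd h u (x t) i j := by
  unfold bd
  split_ifs
  · exact hx _ _ _
  · exact continuous_const

/-- the block diagonal matrix of identities -/
theorem LPF_bid (hBDM : BDM_stmt) {κ : Type} [DecidableEq κ] (h : ℕ → ℕ) (u : List ℕ) (a b : κ) (i j : ℕ)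
    (hi : i < (u.map h).sum) (hj : j < (u.map h).sum) (x : ℕ → ℕ → ℕ → ℂ)
    (hx : ∀ v p q, p < h v → q < h v → x v p q = if a = b ∧ p = q then 1 else 0) :
    bd h u x i j = if a = b ∧ i = j then 1 else 0 := by
  by_cases hab : a = b
  · rw [LPF_bdc hBDM h u x (fun _ p q => if p = q then 1 else 0) (fun v _ p q hp hq => by
      rw [hx v p q hp hq]
      simp [hab]) i j hi hj, (hBDM h u).2.2.1 i j hi hj]
    simp [hab]
  · rw [LPF_bdc hBDM h u x (fun _ _ _ => 0) (fun v _ p q hp hq => by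
      rw [hx v p q hp hq]
      simp [hab]) i j hi hj]
    simp [hab, bd]

noncomputable def LPF_p (s : ℝ) : ℝ := max (1 - 2 * s) 0

noncomputable def LPF_q (s : ℝ) : ℝ := max (2 * s - 1) 0

theorem LPF_pc : Continuous LPF_p := by unfold LPF_p; fun_prop

theorem LPF_qc : Continuous LPF_q := by unfold LPF_q; fun_prop

theorem LPF_pU {τ s : ℝ} (hτ : τ ∈ U) (hs : s ∈ U) : τ * LPF_p s ∈ U := by
  have h1 : 0 ≤ LPF_p s := le_max_right _ _
  have h2 : LPF_p s ≤ 1 := max_le (by linarith [hs.1]) zero_le_one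
  exact ⟨mul_nonneg hτ.1 h1, mul_le_one₀ hτ.2 h1 h2⟩

theorem LPF_qU {τ s : ℝ} (hτ : τ ∈ U) (hs : s ∈ U) : τ * LPF_q s ∈ U := by
  have h1 : 0 ≤ LPF_q s := le_max_right _ _
  have h2 : LPF_q s ≤ 1 := max_le (by linarith [hs.2]) zero_le_one
  exact ⟨mul_nonneg hτ.1 h1, mul_le_one₀ hτ.2 h1 h2⟩

/-- the homotopy of families -/
noncomputable def LPF_G {κ : Type} [DecidableEq κ] (L : Lv)
    (γ : ∀ v : ℕ, ℝ → Matrix (κ × Fin (L.h v)) (κ × Fin (L.h v)) ℂ) (τ : ℝ) (a b : κ) (e : ℕ) (s : ℝ)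
    (i j : ℕ) : ℂ :=
  if e < L.n then LPF_u (γ e τ) a b i j else
    bd L.h (L.W e false) (fun v => LPF_u (γ v (τ * LPF_p s)) a b) i j +
      bd L.h (L.W e true) (fun v => LPF_u (γ v (τ * LPF_q s)) a b) i j - if a = b ∧ i = j then 1 else 0

theorem LPF_Gc {κ : Type} [DecidableEq κ] (L : Lv)
    (γ : ∀ v : ℕ, ℝ → Matrix (κ × Fin (L.h v)) (κ × Fin (L.h v)) ℂ) (hγ : ∀ v, Continuous (γ v)) (a b : κ)
    (e i j : ℕ) : Continuous fun p : ℝ × ℝ => LPF_G L γ p.1 a b e p.2 i j := by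
  unfold LPF_G
  by_cases he : e < L.n
  · simp only [he, if_true]
    exact LPF_uc (fun p : ℝ × ℝ => γ e p.1) ((hγ e).comp continuous_fst) a b i j
  · simp only [he, if_false]
    refine (Continuous.add ?_ ?_).sub continuous_const
    · refine LPF_bdt L.h (L.W e false) (fun (p : ℝ × ℝ) v => LPF_u (γ v (p.1 * LPF_p p.2)) a b) ?_ i j
      intro v i j
      exact LPF_uc (fun p : ℝ × ℝ => γ v (p.1 * LPF_p p.2))
        ((hγ v).comp (continuous_fst.mul (LPF_pc.comp continuous_snd))) a b i j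
    · refine LPF_bdt L.h (L.W e true) (fun (p : ℝ × ℝ) v => LPF_u (γ v (p.1 * LPF_q p.2)) a b) ?_ i j
      intro v i j
      exact LPF_uc (fun p : ℝ × ℝ => γ v (p.1 * LPF_q p.2))
        ((hγ v).comp (continuous_fst.mul (LPF_qc.comp continuous_snd))) a b i j

/-- the values for `s ≤ 1 / 2` -/
theorem LPF_Gf (hBDM : BDM_stmt) {κ : Type} [DecidableEq κ] (L : Lv) (hl : IsLv L)
    (γ : ∀ v : ℕ, ℝ → Matrix (κ × Fin (L.h v)) (κ × Fin (L.h v)) ℂ) (hγ : ∀ v, γ v 0 = 1) (τ : ℝ) (a b : κ)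
    (e : ℕ) (s : ℝ) (i j : ℕ) (he : ¬ e < L.n) (heN : e < L.N) (hi : i < L.h e) (hj : j < L.h e)
    (hs : s ≤ 1 / 2) :
    LPF_G L γ τ a b e s i j = bd L.h (L.W e false) (fun v => LPF_u (γ v (τ * LPF_p s)) a b) i j := by
  have hq : LPF_q s = 0 := max_eq_right (by linarith)
  unfold LPF_G
  rw [if_neg he, hq, mul_zero, LPF_bid hBDM L.h (L.W e true) a b i j (by rw [hl.ht e heN]; exact hi)
    (by rw [hl.ht e heN]; exact hj) (fun v => LPF_u (γ v 0) a b) (fun v p q hp hq => by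
      rw [hγ v]
      exact LPF_u1 a b p q hp hq)]
  ring

/-- the values for `1 / 2 ≤ s` -/
theorem LPF_Gt (hBDM : BDM_stmt) {κ : Type} [DecidableEq κ] (L : Lv) (hl : IsLv L)
    (γ : ∀ v : ℕ, ℝ → Matrix (κ × Fin (L.h v)) (κ × Fin (L.h v)) ℂ) (hγ : ∀ v, γ v 0 = 1) (τ : ℝ) (a b : κ)
    (e : ℕ) (s : ℝ) (i j : ℕ) (he : ¬ e < L.n) (heN : e < L.N) (hi : i < L.h e) (hj : j < L.h e)
    (hs : 1 / 2 ≤ s) :
    LPF_G L γ τ a b e s i j = bd L.h (L.W e true) (fun v => LPF_u (γ v (τ * LPF_q s)) a b) i j := by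
  have hp : LPF_p s = 0 := max_eq_right (by linarith)
  unfold LPF_G
  rw [if_neg he, hp, mul_zero, LPF_bid hBDM L.h (L.W e false) a b i j (by rw [hl.ht e heN]; exact hi)
    (by rw [hl.ht e heN]; exact hj) (fun v => LPF_u (γ v 0) a b) (fun v p q hp hq => by
      rw [hγ v]
      exact LPF_u1 a b p q hp hq)]
  ring

/-- the logarithm of the determinants on the bands -/
noncomputable def LPF_m (L : Lv) (ν : ℕ → ℝ → ℂ) (τ : ℝ) (e : ℕ) (s : ℝ) : ℂ :=
  ((L.W e false).map fun v => ν v (τ * LPF_p s)).sum + ((L.W e true).map fun v => ν v (τ * LPF_q s)).sum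

theorem LPF_dw (hLBE : LBE_stmt) {κ : Type} [Fintype κ] [DecidableEq κ] (L : Lv) (hl : IsLv L)
    (γ : ∀ v : ℕ, ℝ → Matrix (κ × Fin (L.h v)) (κ × Fin (L.h v)) ℂ) (ν : ℕ → ℝ → ℂ)
    (hγ : ∀ v, ∀ τ ∈ U, (γ v τ).det = Complex.exp (ν v τ)) (e : ℕ) (heN : e < L.N) (w : Bool) (t : ℝ)
    (ht : t ∈ U) :
    (Matrix.of fun p q : κ × Fin (L.h e) =>
      bd L.h (L.W e w) (fun v => LPF_u (γ v t) p.1 q.1) p.2 q.2).det =
      Complex.exp ((L.W e w).map fun v => ν v t).sum := by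
  have h1 := hLBE L hl κ e w (fun a b v => LPF_u (γ v t) a b) heN
  rw [h1, Complex.exp_list_sum, List.map_map]
  congr 1
  refine List.map_congr_left fun v _ => ?_
  rw [LPF_mu, hγ v t ht]
  rfl

theorem LPF_z0 (ν : ℕ → ℝ → ℂ) (hν : ∀ v, ν v 0 = 0) (u : List ℕ) : (u.map fun v => ν v 0).sum = 0 := by
  induction u with
  | nil => rfl
  | cons a u ih => rw [List.map_cons, List.sum_cons, ih, hν a, add_zero]

theorem LPF_det (hBDM : BDM_stmt) (hLBE : LBE_stmt) {κ : Type} [Fintype κ] [DecidableEq κ] (L : Lv)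
    (hl : IsLv L) (γ : ∀ v : ℕ, ℝ → Matrix (κ × Fin (L.h v)) (κ × Fin (L.h v)) ℂ) (ν : ℕ → ℝ → ℂ)
    (h0 : ∀ v, γ v 0 = 1) (hν : ∀ v, ν v 0 = 0)
    (hγ : ∀ v, ∀ τ ∈ U, (γ v τ).det = Complex.exp (ν v τ)) (τ : ℝ) (hτ : τ ∈ U) (e : ℕ) (he : ¬ e < L.n)
    (heN : e < L.N) (s : ℝ) (hs : s ∈ U) :
    (mx L (LPF_G L γ τ) e s).det = Complex.exp (LPF_m L ν τ e s) := by
  unfold LPF_m
  rcases le_total s (1 / 2) with h | h
  · have hq : LPF_q s = 0 := max_eq_right (by linarith)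
    rw [hq, mul_zero, LPF_z0 ν hν, add_zero, ← LPF_dw hLBE L hl γ ν hγ e heN false _ (LPF_pU hτ hs)]
    congr 1
    ext ⟨a, i⟩ ⟨b, j⟩
    exact LPF_Gf hBDM L hl γ h0 τ a b e s i j he heN i.2 j.2 h
  · have hp : LPF_p s = 0 := max_eq_right (by linarith)
    rw [hp, mul_zero, LPF_z0 ν hν, zero_add, ← LPF_dw hLBE L hl γ ν hγ e heN true _ (LPF_qU hτ hs)]
    congr 1
    ext ⟨a, i⟩ ⟨b, j⟩
    exact LPF_Gt hBDM L hl γ h0 τ a b e s i j he heN i.2 j.2 h

theorem LPF_gf (hBDM : BDM_stmt) (hLBE : LBE_stmt) {κ : Type} [Fintype κ] [DecidableEq κ] (L : Lv)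
    (hl : IsLv L) (γ : ∀ v : ℕ, ℝ → Matrix (κ × Fin (L.h v)) (κ × Fin (L.h v)) ℂ) (ν : ℕ → ℝ → ℂ)
    (hc : ∀ v, Continuous (γ v)) (h0 : ∀ v, γ v 0 = 1) (hν : ∀ v, ν v 0 = 0)
    (hγ : ∀ v, ∀ τ ∈ U, (γ v τ).det = Complex.exp (ν v τ)) (τ : ℝ) (hτ : τ ∈ U) :
    IsGF L (LPF_G L γ τ) := by
  have hv : ∀ a b e s i j, e < L.n → LPF_G L γ τ a b e s i j = LPF_u (γ e τ) a b i j := by
    intro a b e s i j he
    unfold LPF_G
    rw [if_pos he]
  refine ⟨fun a b => ⟨?_, ?_, ?_⟩, ?_⟩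
  · intro e i j _ _ _
    exact ((LPF_Gc L γ hc a b e i j).comp (Continuous.prodMk_right τ)).continuousOn
  · intro e s i j he _ _ _
    rw [hv a b e s i j he, hv a b e 0 i j he]
  · intro e i j w he hi hj
    by_cases hen : e < L.n
    · rw [hl.vtx e hen w, LPF_bd1 _ _ _ _ _ hi hj, hv a b e _ i j hen, hv a b e 0 i j hen]
    · have hi' : i < ((L.W e w).map L.h).sum := by rw [hl.ht e he w]; exact hi
      have hj' : j < ((L.W e w).map L.h).sum := by rw [hl.ht e he w]; exact hj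
      rw [LPF_bdc hBDM L.h (L.W e w) (fun v => LPF_G L γ τ a b v 0) (fun v => LPF_u (γ v τ) a b)
        (fun v hv' p q _ _ => hv a b v 0 p q (hl.mem e he w v hv')) i j hi' hj']
      cases w
      · simp only [Bool.false_eq_true, if_false]
        rw [LPF_Gf hBDM L hl γ h0 τ a b e 0 i j hen he hi hj (by norm_num)]
        have e1 : LPF_p 0 = 1 := by unfold LPF_p; norm_num
        rw [e1, mul_one]
      · simp only [if_true]
        rw [LPF_Gt hBDM L hl γ h0 τ a b e 1 i j hen he hi hj (by norm_num)]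
        have e1 : LPF_q 1 = 1 := by unfold LPF_q; norm_num
        rw [e1, mul_one]
  · intro e s he hs
    by_cases hen : e < L.n
    · have e1 : mx L (LPF_G L γ τ) e s = γ e τ := by
        ext ⟨a, i⟩ ⟨b, j⟩
        exact (hv a b e s i j hen).trans (LPF_ue _ a b i j)
      rw [e1, hγ e τ hτ]
      exact Complex.exp_ne_zero _
    · rw [LPF_det hBDM hLBE L hl γ ν h0 hν hγ τ hτ e hen he s hs]
      exact Complex.exp_ne_zero _

theorem LPF_G0 (hBDM : BDM_stmt) {κ : Type} [DecidableEq κ] (L : Lv) (hl : IsLv L)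
    (γ : ∀ v : ℕ, ℝ → Matrix (κ × Fin (L.h v)) (κ × Fin (L.h v)) ℂ) (h0 : ∀ v, γ v 0 = 1) (a b : κ) (e : ℕ)
    (s : ℝ) (i j : ℕ) (he : e < L.N) (hi : i < L.h e) (hj : j < L.h e) :
    LPF_G L γ 0 a b e s i j = if a = b ∧ i = j then 1 else 0 := by
  by_cases hen : e < L.n
  · unfold LPF_G
    rw [if_pos hen, h0 e]
    exact LPF_u1 a b i j hi hj
  · unfold LPF_G
    rw [if_neg hen, zero_mul, zero_mul]
    rw [LPF_bid hBDM L.h (L.W e false) a b i j (by rw [hl.ht e he]; exact hi)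
      (by rw [hl.ht e he]; exact hj) (fun v => LPF_u (γ v 0) a b) (fun v p q hp hq => by
        rw [h0 v]
        exact LPF_u1 a b p q hp hq),
      LPF_bid hBDM L.h (L.W e true) a b i j (by rw [hl.ht e he]; exact hi)
      (by rw [hl.ht e he]; exact hj) (fun v => LPF_u (γ v 0) a b) (fun v p q hp hq => by
        rw [h0 v]
        exact LPF_u1 a b p q hp hq)]
    ring

theorem LPF (hLPD : LPD_stmt) (hLBE : LBE_stmt) (hBDM : BDM_stmt) (hLGU : LGU_stmt) (hLHT : LHT_stmt) (hBFA : BFA_stmt) (hK1M : K1M_stmt) : LPF_stmt := by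
  intro B M _ α A _ ι u c hC S hS m κ _ _ _ q l hq
  have hl : IsLv (B.L m) := hC.bs.lv m
  have h1U : (1 : ℝ) ∈ U := ⟨zero_le_one, le_rfl⟩
  have hex : ∀ v, ∃ (γ : ℝ → Matrix (κ × Fin ((B.L m).h v)) (κ × Fin ((B.L m).h v)) ℂ) (ν : ℝ → ℂ),
      Continuous γ ∧ Continuous ν ∧ γ 0 = 1 ∧ ν 0 = 0 ∧ (∀ τ ∈ U, (γ τ).det = Complex.exp (ν τ)) ∧
      (v < (B.L m).n → γ 1 = q v ∧ ν 1 = l v) := by
    intro v
    by_cases hv : v < (B.L m).n
    · have : Nonempty (Fin ((B.L m).h v)) := ⟨⟨0, hl.pos v (lt_of_lt_of_le hv hl.nN)⟩⟩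
      obtain ⟨γ, ν, h1, h2, h3, h4, h5, h6, h7⟩ := hLPD (κ × Fin ((B.L m).h v)) (q v) (l v) (hq v hv)
      exact ⟨γ, ν, h1, h2, h3, h5, h7, fun _ => ⟨h4, h6⟩⟩
    · refine ⟨fun _ => 1, fun _ => 0, continuous_const, continuous_const, rfl, rfl, fun τ _ => ?_,
        fun h => absurd h hv⟩
      rw [Matrix.det_one, Complex.exp_zero]
  choose γ ν hγc hνc hγ0 hν0 hdet hend using hex
  have hGF : ∀ τ ∈ U, IsGF (B.L m) (LPF_G (B.L m) γ τ) := fun τ hτ =>
    LPF_gf hBDM hLBE (B.L m) hl γ ν hγc hγ0 hν0 hdet τ hτ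
  obtain ⟨p, hp⟩ := hLGU B M α A ι u c hC S hS m κ (LPF_G (B.L m) γ 1) (hGF 1 h1U)
  have h1F : HF B c m (((1 : (Matrix κ κ (S m))ˣ)) : Matrix κ κ (S m)) (LPF_G (B.L m) γ 0) := by
    intro a b x e s i he hs hi hx n
    rw [Units.val_one, Matrix.one_apply]
    by_cases hab : a = b
    · rw [if_pos hab]
      have h2 := (hBFA B M α A ι u c hC m).1.2 x e s i he hs hi hx n
      have e1 : ((1 : S m) : A) = 1 := rfl
      rw [e1, h2]
      by_cases h3 : 0 ≤ (i : ℤ) - n ∧ (i : ℤ) - n < (B.L m).h e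
      · rw [if_pos h3, if_pos h3, LPF_G0 hBDM (B.L m) hl γ hγ0 a b e s i _ he hi (by omega)]
        simp only [hab, true_and]
      · rw [if_neg h3, if_neg h3]
    · rw [if_neg hab]
      have e1 : ((0 : S m) : A) = 0 := rfl
      rw [e1, map_zero]
      split_ifs with h3
      · rw [LPF_G0 hBDM (B.L m) hl γ hγ0 a b e s i _ he hi (by omega), if_neg (fun h => hab h.1)]
        rfl
      · rfl
  have hk : k1 (1 : (Matrix κ κ (S m))ˣ) = k1 p :=
    hLHT B M α A ι u c hC S hS m κ (fun τ => LPF_G (B.L m) γ τ) hGF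
      (fun a b e i j _ _ _ => (LPF_Gc (B.L m) γ hγc a b e i j).continuousOn) 1 p h1F hp
  refine ⟨p, LPF_G (B.L m) γ 1, LPF_m (B.L m) ν 1, hGF 1 h1U, hp, ?_, ?_, ?_⟩
  · rw [← hk]
    exact (hK1M (S m) κ 1 1).2.2.1
  · intro v hv
    rw [← (hend v hv).1]
    ext ⟨a, i⟩ ⟨b, j⟩
    have e1 : LPF_G (B.L m) γ 1 a b v 0 i j = LPF_u (γ v 1) a b i j := by
      unfold LPF_G
      rw [if_pos hv]
    exact e1.trans (LPF_ue _ a b i j)
  · intro e hen heN
    have hsum : ∀ (w : Bool), ((((B.L m).W e w)).map fun v => ν v 1).sum =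
        (((B.L m).W e w).map l).sum := by
      intro w
      congr 1
      refine List.map_congr_left fun v hv => ?_
      exact (hend v (hl.mem e heN w v hv)).2
    refine ⟨?_, ?_, ?_, ?_⟩
    · have hcs : ∀ (f : ℝ → ℝ), Continuous f → ∀ w : List ℕ,
          Continuous fun s => (w.map fun v => ν v (1 * f s)).sum := by
        intro f hf w
        induction w with
        | nil => exact continuous_const
        | cons a w ih =>
          simp only [List.map_cons, List.sum_cons]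
          exact ((hνc a).comp (continuous_const.mul hf)).add ih
      exact ((hcs _ LPF_pc _).add (hcs _ LPF_qc _)).continuousOn
    · unfold LPF_m
      have e1 : LPF_p 0 = 1 := by unfold LPF_p; norm_num
      have e2 : LPF_q 0 = 0 := by unfold LPF_q; norm_num
      rw [e1, e2, mul_one, mul_zero, LPF_z0 ν hν0, add_zero, hsum]
    · unfold LPF_m
      have e1 : LPF_p 1 = 0 := by unfold LPF_p; norm_num
      have e2 : LPF_q 1 = 1 := by unfold LPF_q; norm_num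
      rw [e1, e2, mul_one, mul_zero, LPF_z0 ν hν0, zero_add, hsum]
    · intro s hs
      exact LPF_det hBDM hLBE (B.L m) hl γ ν hγ0 hν0 hdet 1 h1U e (not_lt.2 hen) heN s hs

end Pool.Agent.BND
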